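import Pool.Agent.H368.NV.System

/-!
# `ℓ^p` Roe algebras, localization algebras and the coarse assembly map: definitions
-/

set_option autoImplicit false
set_option linter.unusedVariables false

namespace Pool.Agent.H368.NS

open scoped ENNReal NNReal Topology BoundedContinuousFunction
open Filter NV

noncomputable section

/-- The Banach space `ℓ^p(I)` of complex functions on `I`. -/
def Ell (p : ℝ≥0∞) (I : Type) : Type := lp (fun _ : I => ℂ) p

instance (p : ℝ≥0∞) [Fact (1 ≤ p)] (I : Type) : NormedAddCommGroup (Ell p I) :=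
  (inferInstance : NormedAddCommGroup (lp (fun _ : I => ℂ) p))

instance (p : ℝ≥0∞) [Fact (1 ≤ p)] (I : Type) : NormedSpace ℂ (Ell p I) :=
  (inferInstance : NormedSpace ℂ (lp (fun _ : I => ℂ) p))

/-- The value of `f ∈ ℓ^p(I)` at `i ∈ I`. -/
def Ell.val {p : ℝ≥0∞} {I : Type} (f : Ell p I) (i : I) : ℂ := Subtype.val f i

/-- The Banach algebra of bounded operators on `ℓ^p(I)`. -/
def Op (p : ℝ≥0∞) [Fact (1 ≤ p)] (I : Type) : Type := Ell p I →L[ℂ] Ell p I

instance (p : ℝ≥0∞) [Fact (1 ≤ p)] (I : Type) : NormedRing (Op p I) :=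
  (inferInstance : NormedRing (Ell p I →L[ℂ] Ell p I))

/-- The continuous linear map given by an element of `Op p I`. -/
def Op.clm {p : ℝ≥0∞} [Fact (1 ≤ p)] {I : Type} (T : Op p I) : Ell p I →L[ℂ] Ell p I := T

/-- The value of an operator. -/
def Op.app {p : ℝ≥0∞} [Fact (1 ≤ p)] {I : Type} (T : Op p I) (f : Ell p I) : Ell p I := T.clm f

/-- `T` is a compact operator. -/
def Op.IsCompact {p : ℝ≥0∞} [Fact (1 ≤ p)] {I : Type} (T : Op p I) : Prop :=
  IsCompactOperator T.app

variable {p : ℝ≥0∞} [Fact (1 ≤ p)] [Fact (p ≠ ∞)] {I J : Type}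

open Classical in
theorem exists_ind (p : ℝ≥0∞) [Fact (1 ≤ p)] [Fact (p ≠ ∞)] {I : Type} (S : Set I) :
    ∃ P : Op p I, ∀ (f : Ell p I) (i : I), (P.app f).val i = if i ∈ S then f.val i else 0 := by
  refine ⟨ind p S, fun f i => ?_⟩
  by_cases h : i ∈ S
  · rw [if_pos h]; exact ind_apply_mem f h
  · rw [if_neg h]; exact ind_apply_notMem f h

/-- Multiplication by the characteristic function of `S ⊆ I`. -/
def ind (p : ℝ≥0∞) [Fact (1 ≤ p)] [Fact (p ≠ ∞)] {I : Type} (S : Set I) : Op p I :=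
  (exists_ind p S).choose

theorem exists_push (ι : I ↪ J) (T : Op p I) :
    ∃ S : Op p J, ∀ (f : Ell p J) (g : Ell p I), (∀ i, g.val i = f.val (ι i)) →
      (∀ i, (S.app f).val (ι i) = (T.app g).val i) ∧
      ∀ j, (∀ i, ι i ≠ j) → (S.app f).val j = 0 := by
  refine ⟨NV.push (p := p) ι T, fun f g hg => ?_⟩
  have h1 : g = res p ι f := by
    apply Subtype.ext
    funext i
    exact hg i
  subst h1
  exact ⟨fun i => exz_apply ι _ i, fun j hj => exz_apply_notMem ι _ hj⟩

/-- The operator `V T V⁺` on `ℓ^p(J)`, where `V` is the isometry `ℓ^p(I) → ℓ^p(J)` given by the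
injection `ι` and `V⁺` is the restriction of functions along `ι`. -/
def push (ι : I ↪ J) (T : Op p I) : Op p J := (exists_push ι T).choose

/-- The Banach algebra of bounded continuous functions from `[0, ∞)` to the bounded operators on
`ℓ^p(I)`, with the supremum norm. -/
def Path (p : ℝ≥0∞) [Fact (1 ≤ p)] (I : Type) : Type := ℝ≥0 →ᵇ Op p I

instance (p : ℝ≥0∞) [Fact (1 ≤ p)] (I : Type) : NormedRing (Path p I) :=
  (inferInstance : NormedRing (ℝ≥0 →ᵇ Op p I))

/-- The value of a function at `t ∈ [0, ∞)`. -/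
def Path.val {p : ℝ≥0∞} [Fact (1 ≤ p)] {I : Type} (f : Path p I) (t : ℝ≥0) : Op p I :=
  BoundedContinuousFunction.toContinuousMap f t

section Space

variable {Y : Type} [PseudoEMetricSpace Y] {Z : Set Y}

/-- Multiplication by the characteristic function of `V ⊆ Y` on `ℓ^p(Z × ℕ) = ℓ^p(Z, ℓ^p(ℕ))`. -/
def chi (p : ℝ≥0∞) [Fact (1 ≤ p)] [Fact (p ≠ ∞)] (Z V : Set Y) : Op p (Z × ℕ) :=
  ind p {a : Z × ℕ | (a.1 : Y) ∈ V}

/-- The support of an operator: the pairs `(x, y)` with `χ_V T χ_U ≠ 0` for all open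
neighbourhoods `U` of `x` and `V` of `y`. -/
def supp (T : Op p (Z × ℕ)) : Set (Y × Y) :=
  {q | ∀ U V : Set Y, IsOpen U → IsOpen V → q.1 ∈ U → q.2 ∈ V → chi p Z V * T * chi p Z U ≠ 0}

/-- The propagation of an operator. -/
def prop (T : Op p (Z × ℕ)) : ℝ≥0∞ := ⨆ q ∈ supp T, edist q.1 q.2

/-- `T` is locally compact: `χ_K T` and `T χ_K` are compact for all compact `K ⊆ Y`. -/
def LocCpt (T : Op p (Z × ℕ)) : Prop :=
  ∀ K : Set Y, IsCompact K → (chi p Z K * T).IsCompact ∧ (T * chi p Z K).IsCompact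

/-- The algebra of locally compact operators of finite propagation. -/
def roeAlg (p : ℝ≥0∞) [Fact (1 ≤ p)] [Fact (p ≠ ∞)] (Z : Set Y) : Set (Op p (Z × ℕ)) :=
  {T | LocCpt T ∧ prop T ≠ ∞}

theorem chi_eq (V : Set Y) : (chi p Z V : NV.Op p (Z × ℕ)) = NV.chi p Z V := by
  have h := (exists_ind p {a : Z × ℕ | (a.1 : Y) ∈ V}).choose_spec
  apply ContinuousLinearMap.ext
  intro f
  apply Subtype.ext
  funext i
  refine (h f i).trans ?_
  by_cases hi : i ∈ {a : Z × ℕ | (a.1 : Y) ∈ V}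
  · rw [if_pos hi]; exact (ind_apply_mem f hi).symm
  · rw [if_neg hi]; exact (ind_apply_notMem f hi).symm

theorem supp_eq (T : Op p (Z × ℕ)) : supp T = NV.supp (p := p) T := by
  unfold supp NV.supp
  ext q
  simp only [Set.mem_ofPred_eq]
  simp only [← chi_eq]
  exact Iff.rfl

theorem prop_eq (T : Op p (Z × ℕ)) : prop T = NV.prop (p := p) T := by
  unfold prop NV.prop
  rw [supp_eq]

theorem locCpt_iff (T : Op p (Z × ℕ)) : LocCpt T ↔ NV.LocCpt (p := p) T := by
  unfold LocCpt NV.LocCpt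
  simp only [← chi_eq]
  exact Iff.rfl

theorem roeAlg_eq : (roeAlg p Z : Set (Op p (Z × ℕ))) = NV.roeAlg p Z := by
  unfold roeAlg NV.roeAlg
  ext T
  exact and_congr (locCpt_iff T) (by rw [prop_eq T])

theorem zero_mem_roeAlg : (0 : Op p (Z × ℕ)) ∈ roeAlg p Z := by
  refine ⟨(locCpt_iff _).2 NV.locCpt_zero, ?_⟩
  rw [prop_eq]
  exact (congrArg (fun x => x ≠ ∞) (NV.prop_zero (p := p) (Z := Z))).mpr ENNReal.zero_ne_top

/-- The `ℓ^p` Roe algebra `B^p(Y)`: the norm closure of the algebra of locally compact operators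
of finite propagation on `ℓ^p(Z × ℕ)`. -/
def roe (p : ℝ≥0∞) [Fact (1 ≤ p)] [Fact (p ≠ ∞)] (Z : Set Y) : ZSet (Op p (Z × ℕ)) where
  s := closure (roeAlg p Z)
  zero_mem := subset_closure zero_mem_roeAlg

/-- The algebra of bounded and uniformly continuous maps `f : [0, ∞) → B^p(Y)` such that the
propagation of `f t` is bounded in `t` and tends to `0` for `t → ∞`. -/
def locAlg (p : ℝ≥0∞) [Fact (1 ≤ p)] [Fact (p ≠ ∞)] (Z : Set Y) : Set (Path p (Z × ℕ)) :=
  {f | UniformContinuous f.val ∧ (∀ t, f.val t ∈ (roe p Z).s) ∧ (⨆ t, prop (f.val t)) ≠ ∞ ∧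
    Tendsto (fun t => prop (f.val t)) atTop (𝓝 0)}

theorem roe_s_eq : ((roe p Z).s : Set (Op p (Z × ℕ))) = (NV.roe p Z).s := by
  change closure (roeAlg p Z) = closure (NV.roeAlg p Z)
  rw [roeAlg_eq]
  rfl

theorem locAlg_eq : (locAlg p Z : Set (Path p (Z × ℕ))) = NV.locAlg p Z := by
  unfold locAlg NV.locAlg
  rw [roe_s_eq]
  simp only [prop_eq]
  rfl

theorem nv_zero_mem_locAlg : (0 : ℝ≥0 →ᵇ NV.Op p (Z × ℕ)) ∈ NV.locAlg p Z :=
  ⟨uniformContinuous_const, fun _ => (NV.roe p Z).zero_mem, by simp [NV.prop_zero],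
    by simp [NV.prop_zero]⟩

theorem zero_mem_locAlg : (0 : Path p (Z × ℕ)) ∈ locAlg p Z := by
  rw [locAlg_eq]
  exact nv_zero_mem_locAlg

/-- The `ℓ^p` localization algebra `B_L^p(Y)`: the norm closure of `locAlg`. -/
def loc (p : ℝ≥0∞) [Fact (1 ≤ p)] [Fact (p ≠ ∞)] (Z : Set Y) : ZSet (Path p (Z × ℕ)) where
  s := closure (locAlg p Z)
  zero_mem := subset_closure zero_mem_locAlg

theorem val_add (f g : Path p I) (t : ℝ≥0) : (f + g).val t = f.val t + g.val t := rfl

theorem val_mul (f g : Path p I) (t : ℝ≥0) : (f * g).val t = f.val t * g.val t := rfl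

theorem continuous_val_zero : Continuous fun f : Path p I => f.val 0 :=
  continuous_eval_const (F := ℝ≥0 →ᵇ Op p I) (0 : ℝ≥0)

theorem loc_s_eq : ((loc p Z).s : Set (Path p (Z × ℕ))) = (NV.loc p Z).s := by
  change closure (locAlg p Z) = closure (NV.locAlg p Z)
  rw [locAlg_eq]
  rfl

theorem val_mem_roe {f : Path p (Z × ℕ)} (hf : f ∈ (loc p Z).s) (t : ℝ≥0) :
    f.val t ∈ (roe p Z).s := by
  rw [roe_s_eq]
  rw [loc_s_eq] at hf
  exact NV.mem_roe_of_mem_loc hf t

/-- Evaluation at `0` is a homomorphism `B_L^p(Y) → B^p(Y)`. -/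
def evalZero (p : ℝ≥0∞) [Fact (1 ≤ p)] [Fact (p ≠ ∞)] (Z : Set Y) :
    CHom (loc p Z) (roe p Z) where
  f := fun f => f.val 0
  map_add := fun f g => val_add f g 0
  map_mul := fun f g => val_mul f g 0
  cont := continuous_val_zero
  maps := fun f hf => val_mem_roe hf 0

end Space

section Push

theorem push_eq (ι : I ↪ J) (T : Op p I) : (push ι T : NV.Op p J) = NV.push (p := p) ι T := by
  have h := (exists_push ι T).choose_spec
  apply ContinuousLinearMap.ext
  intro f
  apply Subtype.ext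
  funext j
  obtain ⟨h1, h2⟩ := h f (NV.res p ι f) (fun i => rfl)
  by_cases hj : ∃ i, ι i = j
  · obtain ⟨i, rfl⟩ := hj
    exact (h1 i).trans (exz_apply ι _ i).symm
  · push Not at hj
    exact (h2 j hj).trans (exz_apply_notMem ι _ hj).symm

theorem push_add (ι : I ↪ J) (T S : Op p I) : push ι (T + S) = push ι T + push ι S := by
  rw [push_eq, push_eq, push_eq]
  exact NV.push_add ι T S

theorem push_mul (ι : I ↪ J) (T S : Op p I) : push ι (T * S) = push ι T * push ι S := by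
  rw [push_eq, push_eq, push_eq]
  exact NV.push_mul ι T S

theorem push_fun_eq (ι : I ↪ J) : (push ι : Op p I → Op p J) = NV.push (p := p) ι :=
  funext fun T => push_eq ι T

theorem continuous_push (ι : I ↪ J) : Continuous (push ι : Op p I → Op p J) := by
  rw [push_fun_eq]
  exact (NV.pushL p ι).continuous

theorem exists_pushPath (ι : I ↪ J) (f : Path p I) :
    ∃ g : Path p J, ∀ t, g.val t = push ι (f.val t) :=
  ⟨(NV.pushL p ι).compLeftContinuousBounded ℝ≥0 f, fun t => (push_eq ι (f.val t)).symm⟩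

/-- The function `t ↦ V f(t) V⁺`. -/
def pushPath (ι : I ↪ J) (f : Path p I) : Path p J := (exists_pushPath ι f).choose

theorem path_ext {f g : Path p I} (h : ∀ t, f.val t = g.val t) : f = g :=
  BoundedContinuousFunction.ext h

theorem pushPath_val (ι : I ↪ J) (f : Path p I) (t : ℝ≥0) :
    (pushPath ι f).val t = push ι (f.val t) := (exists_pushPath ι f).choose_spec t

theorem pushPath_eq (ι : I ↪ J) (f : Path p I) :
    (pushPath ι f : ℝ≥0 →ᵇ NV.Op p J) = (NV.pushL p ι).compLeftContinuousBounded ℝ≥0 f :=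
  path_ext fun t => (pushPath_val ι f t).trans (push_eq ι (f.val t))

theorem pushPath_add (ι : I ↪ J) (f g : Path p I) :
    pushPath ι (f + g) = pushPath ι f + pushPath ι g := by
  apply path_ext
  intro t
  rw [pushPath_val, val_add, push_add, val_add, pushPath_val, pushPath_val]

theorem pushPath_mul (ι : I ↪ J) (f g : Path p I) :
    pushPath ι (f * g) = pushPath ι f * pushPath ι g := by
  apply path_ext
  intro t
  rw [pushPath_val, val_mul, push_mul, val_mul, pushPath_val, pushPath_val]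

theorem continuous_pushPath (ι : I ↪ J) : Continuous (pushPath ι : Path p I → Path p J) := by
  have h : (pushPath ι : Path p I → Path p J) =
      fun f => (NV.pushL p ι).compLeftContinuousBounded ℝ≥0 f := funext fun f => pushPath_eq ι f
  rw [h]
  exact ((NV.pushL p ι).compLeftContinuousBounded ℝ≥0).continuous

variable {X : Type} [MetricSpace X] [ProperSpace X] {S : AntiCech X} {t : Trans S}

theorem push_mem_roe (L : Lift t) (k : ℕ) {T : Op p (rat (nerve (S.cov k)) × ℕ)}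
    (hT : T ∈ (roe p (rat (nerve (S.cov k)))).s) :
    push (L.fib k) T ∈ (roe p (rat (nerve (S.cov (k + 1))))).s := by
  rw [roe_s_eq] at hT ⊢
  rw [push_eq]
  exact (L.covers k).mem_roe hT

theorem pushPath_mem_loc (L : Lift t) (k : ℕ) {f : Path p (rat (nerve (S.cov k)) × ℕ)}
    (hf : f ∈ (loc p (rat (nerve (S.cov k)))).s) :
    pushPath (L.fib k) f ∈ (loc p (rat (nerve (S.cov (k + 1))))).s := by
  rw [loc_s_eq] at hf ⊢
  rw [pushPath_eq]
  exact (L.covers k).mem_loc hf

/-- The homomorphisms `B^p(N_{C_k}) → B^p(N_{C_{k+1}})`. -/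
def onRoe (p : ℝ≥0∞) [Fact (1 ≤ p)] [Fact (p ≠ ∞)] (L : Lift t) (k : ℕ) :
    CHom (roe p (rat (nerve (S.cov k)))) (roe p (rat (nerve (S.cov (k + 1))))) where
  f := push (L.fib k)
  map_add := push_add _
  map_mul := push_mul _
  cont := continuous_push _
  maps := fun _ hT => push_mem_roe L k hT

/-- The homomorphisms `B_L^p(N_{C_k}) → B_L^p(N_{C_{k+1}})`. -/
def onLoc (p : ℝ≥0∞) [Fact (1 ≤ p)] [Fact (p ≠ ∞)] (L : Lift t) (k : ℕ) :
    CHom (loc p (rat (nerve (S.cov k)))) (loc p (rat (nerve (S.cov (k + 1))))) where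
  f := pushPath (L.fib k)
  map_add := pushPath_add _
  map_mul := pushPath_mul _
  cont := continuous_pushPath _
  maps := fun _ hT => pushPath_mem_loc L k hT

end Push

section Assembly

variable {X : Type} [MetricSpace X] [ProperSpace X] {S : AntiCech X} {t : Trans S}

variable (p : ℝ≥0∞) [Fact (1 ≤ p)] [Fact (p ≠ ∞)]

/-- The groups `K₁(B_L^p(N_{C_k}))`. -/
def KL (S : AntiCech X) (k : ℕ) : Type := K1 (loc p (rat (nerve (S.cov k))))

/-- The groups `K₁(B^p(N_{C_k}))`. -/
def KR (S : AntiCech X) (k : ℕ) : Type := K1 (roe p (rat (nerve (S.cov k))))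

/-- The maps `K₁(B_L^p(N_{C_k})) → K₁(B_L^p(N_{C_{k+1}}))`. -/
def stepL (L : Lift t) (k : ℕ) : KL p S k → KL p S (k + 1) := K1.map (onLoc p L k)

/-- The maps `K₁(B^p(N_{C_k})) → K₁(B^p(N_{C_{k+1}}))`. -/
def stepR (L : Lift t) (k : ℕ) : KR p S k → KR p S (k + 1) := K1.map (onRoe p L k)

/-- The maps `K₁(B_L^p(N_{C_k})) → K₁(B^p(N_{C_k}))` induced by evaluation at `0`. -/
def ev (S : AntiCech X) (k : ℕ) : KL p S k → KR p S k := K1.map (evalZero p _)

theorem ev_step (L : Lift t) (k : ℕ) (x : KL p S k) :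
    ev p S (k + 1) (stepL p L k x) = stepR p L k (ev p S k x) :=
  K1.map_eq_of_comp (onLoc p L k) (evalZero p _) (evalZero p _) (onRoe p L k)
    (fun f => pushPath_val (L.fib k) f 0) x

/-- The `ℓ^p` coarse assembly map in degree one,
`lim_k K₁(B_L^p(N_{C_k})) → lim_k K₁(B^p(N_{C_k}))`. -/
def mu (L : Lift t) : Lim (KL p S) (stepL p L) → Lim (KR p S) (stepR p L) :=
  Lim.map (stepL p L) (stepR p L) (ev p S) (ev_step p L)

end Assembly

end

end Pool.Agent.H368.NS
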