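import Pool.Agent.H368.NS.Defs
import Pool.Agent.H368.NV.Rips

/-!
# `ℓ^p` Roe algebras and localization algebras of Rips complexes and the index map: definitions
-/

set_option autoImplicit false
set_option linter.unusedVariables false

namespace Pool.Agent.H368.NSM

open scoped ENNReal NNReal Topology BoundedContinuousFunction
open Filter NV

noncomputable section

variable {p : ℝ≥0∞} [Fact (1 ≤ p)] [Fact (p ≠ ∞)]

section Space

variable {Y : Type} [PseudoEMetricSpace Y] {Z : Set Y}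

theorem exists_block (T : NS.Op p (Z × ℕ)) (x y : Z) :
    ∃ S : NS.Op p ℕ, ∀ (f : NS.Ell p ℕ) (g : NS.Ell p (Z × ℕ)),
      (∀ i, g.val (y, i) = f.val i) → (∀ a : Z × ℕ, a.1 ≠ y → g.val a = 0) →
        ∀ i, (S.app f).val i = (T.app g).val (x, i) := by
  refine ⟨NV.block (p := p) T x y, fun f g h1 h2 i => ?_⟩
  have h3 : g = NV.exz p (NV.fib y) f := by
    apply Subtype.ext
    funext a
    by_cases h : a.1 = y
    · obtain ⟨a1, a2⟩ := a
      simp only at h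
      subst h
      exact (h1 a2).trans (exz_apply (NV.fib a1) f a2).symm
    · exact (h2 a h).trans
        (exz_apply_notMem (NV.fib y) f (fun i hi => h (by rw [← hi]; rfl))).symm
  subst h3
  exact NV.res_apply (NV.fib x) _ i

/-- The matrix entry `T(x, y)`, a bounded operator on `ℓ^p(ℕ)`, of an operator on
`ℓ^p(Z, ℓ^p(ℕ)) = ℓ^p(Z × ℕ)`. -/
def block (T : NS.Op p (Z × ℕ)) (x y : Z) : NS.Op p ℕ := (exists_block T x y).choose

/-- `T` is locally compact: all entries `T(x, y)` are compact, and for every bounded `B ⊆ Y` there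
are only finitely many `(x, y) ∈ (B × B) ∩ (Z × Z)` with `T(x, y) ≠ 0`. -/
def LocCpt (T : NS.Op p (Z × ℕ)) : Prop :=
  (∀ x y : Z, (block T x y).IsCompact) ∧ ∀ B : Set Y, EBdd B →
    {q : Z × Z | (q.1 : Y) ∈ B ∧ (q.2 : Y) ∈ B ∧ block T q.1 q.2 ≠ 0}.Finite

/-- The propagation: the infimum of all `S > 0` such that `T(x, y) = 0` if `d(x, y) > S`. -/
def prop (T : NS.Op p (Z × ℕ)) : ℝ≥0∞ :=
  ⨅ (S : ℝ≥0) (_ : 0 < S ∧ ∀ x y : Z, (S : ℝ≥0∞) < edist (x : Y) (y : Y) → block T x y = 0),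
    (S : ℝ≥0∞)

/-- The algebra of locally compact operators of finite propagation. -/
def roeAlg (p : ℝ≥0∞) [Fact (1 ≤ p)] [Fact (p ≠ ∞)] (Z : Set Y) : Set (NS.Op p (Z × ℕ)) :=
  {T | LocCpt T ∧ prop T ≠ ∞}

theorem block_eq (T : NS.Op p (Z × ℕ)) (x y : Z) :
    (block T x y : NV.Op p ℕ) = NV.block (p := p) T x y := by
  have h := (exists_block T x y).choose_spec
  apply ContinuousLinearMap.ext
  intro f
  apply Subtype.ext
  funext i
  refine (h f (NV.exz p (NV.fib y) f) (fun i => exz_apply (NV.fib y) f i)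
    (fun a ha => exz_apply_notMem (NV.fib y) f (fun i hi => ha (by rw [← hi]; rfl))) i).trans ?_
  exact (NV.res_apply (NV.fib x) _ i).symm

theorem prop_eq (T : NS.Op p (Z × ℕ)) : prop T = NV.propM (p := p) T := by
  unfold prop NV.propM
  simp only [← block_eq]
  rfl

theorem locCpt_iff (T : NS.Op p (Z × ℕ)) : LocCpt T ↔ NV.LocCptM (p := p) T := by
  constructor
  · rintro ⟨h1, h2⟩
    refine ⟨fun x y => ?_, fun B hB => ?_⟩
    · rw [← block_eq]
      exact h1 x y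
    · simp only [← block_eq]
      exact h2 B hB
  · rintro ⟨h1, h2⟩
    simp only [← block_eq] at h1 h2
    exact ⟨h1, h2⟩

theorem roeAlg_eq : (roeAlg p Z : Set (NS.Op p (Z × ℕ))) = NV.roeAlgM p Z := by
  unfold roeAlg NV.roeAlgM
  ext T
  exact and_congr (locCpt_iff T) (by rw [prop_eq T])

theorem zero_mem_roeAlg : (0 : NS.Op p (Z × ℕ)) ∈ roeAlg p Z := by
  rw [roeAlg_eq]
  exact NV.zero_mem_roeAlgM

/-- The `ℓ^p` Roe algebra `B^p(Y)`: the norm closure of the algebra of locally compact operators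
of finite propagation on `ℓ^p(Z, ℓ^p(ℕ))`. -/
def roe (p : ℝ≥0∞) [Fact (1 ≤ p)] [Fact (p ≠ ∞)] (Z : Set Y) : ZSet (NS.Op p (Z × ℕ)) where
  s := closure (roeAlg p Z)
  zero_mem := subset_closure zero_mem_roeAlg

/-- The algebra of bounded and uniformly continuous maps `g : [0, ∞) → B^p(Y)` such that the
propagation of `g t` tends to `0` for `t → ∞`. -/
def locAlg (p : ℝ≥0∞) [Fact (1 ≤ p)] [Fact (p ≠ ∞)] (Z : Set Y) : Set (NS.Path p (Z × ℕ)) :=
  {g | UniformContinuous g.val ∧ (∀ t, g.val t ∈ (roe p Z).s) ∧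
    Tendsto (fun t => prop (g.val t)) atTop (𝓝 0)}

theorem roe_s_eq : ((roe p Z).s : Set (NS.Op p (Z × ℕ))) = (NV.roeM p Z).s := by
  change closure (roeAlg p Z) = closure (NV.roeAlgM p Z)
  rw [roeAlg_eq]
  rfl

theorem locAlg_eq : (locAlg p Z : Set (NS.Path p (Z × ℕ))) = NV.locAlgM p Z := by
  unfold locAlg NV.locAlgM
  rw [roe_s_eq]
  simp only [prop_eq]
  rfl

theorem zero_mem_locAlg : (0 : NS.Path p (Z × ℕ)) ∈ locAlg p Z := by
  rw [locAlg_eq]
  exact NV.zero_mem_locAlgM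

/-- The `ℓ^p` localization algebra `B_L^p(Y)`: the closure of `locAlg`. -/
def loc (p : ℝ≥0∞) [Fact (1 ≤ p)] [Fact (p ≠ ∞)] (Z : Set Y) : ZSet (NS.Path p (Z × ℕ)) where
  s := closure (locAlg p Z)
  zero_mem := subset_closure zero_mem_locAlg

theorem loc_s_eq : ((loc p Z).s : Set (NS.Path p (Z × ℕ))) = (NV.locM p Z).s := by
  change closure (locAlg p Z) = closure (NV.locAlgM p Z)
  rw [locAlg_eq]
  rfl

theorem val_mem_roe {f : NS.Path p (Z × ℕ)} (hf : f ∈ (loc p Z).s) (t : ℝ≥0) :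
    f.val t ∈ (roe p Z).s := by
  rw [roe_s_eq]
  rw [loc_s_eq] at hf
  exact NV.mem_roeM_of_mem_locM hf t

/-- Evaluation at `0` is a homomorphism `B_L^p(Y) → B^p(Y)`. -/
def evalZero (p : ℝ≥0∞) [Fact (1 ≤ p)] [Fact (p ≠ ∞)] (Z : Set Y) :
    CHom (loc p Z) (roe p Z) where
  f := fun f => f.val 0
  map_add := fun f g => NS.val_add f g 0
  map_mul := fun f g => NS.val_mul f g 0
  cont := NS.continuous_val_zero
  maps := fun f hf => val_mem_roe hf 0

end Space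

section Rips

variable {Γ : Type} [MetricSpace Γ]

theorem rips_le {d d' : ℝ≥0} (h : d ≤ d') : rips Γ d ⊆ rips Γ d' :=
  rips_mono (NNReal.coe_le_coe.2 h)

variable (p : ℝ≥0∞) [Fact (1 ≤ p)] [Fact (p ≠ ∞)]

theorem push_mem_roe (hΓ : BoundedGeometry Γ) {d d' : ℝ≥0} (h : d ≤ d')
    {T : NS.Op p (rat (rips Γ d) × ℕ)} (hT : T ∈ (roe p (rat (rips Γ d))).s) :
    NS.push (inclZ (rips_le h)) T ∈ (roe p (rat (rips Γ d'))).s := by
  rw [roe_s_eq] at hT ⊢
  rw [NS.push_eq]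
  exact (coversM_rips hΓ h).mem_roeM hT

theorem pushPath_mem_loc (hΓ : BoundedGeometry Γ) {d d' : ℝ≥0} (h : d ≤ d')
    {f : NS.Path p (rat (rips Γ d) × ℕ)} (hf : f ∈ (loc p (rat (rips Γ d))).s) :
    NS.pushPath (inclZ (rips_le h)) f ∈ (loc p (rat (rips Γ d'))).s := by
  rw [loc_s_eq] at hf ⊢
  rw [NS.pushPath_eq]
  exact (coversM_rips hΓ h).mem_locM hf

/-- The homomorphisms `B^p(P_d(Γ)) → B^p(P_{d'}(Γ))` given by the inclusions. -/
def onRoe (hΓ : BoundedGeometry Γ) {d d' : ℝ≥0} (h : d ≤ d') :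
    CHom (roe p (rat (rips Γ d))) (roe p (rat (rips Γ d'))) where
  f := NS.push (inclZ (rips_le h))
  map_add := NS.push_add _
  map_mul := NS.push_mul _
  cont := NS.continuous_push _
  maps := fun _ hT => push_mem_roe p hΓ h hT

/-- The homomorphisms `B_L^p(P_d(Γ)) → B_L^p(P_{d'}(Γ))` given by the inclusions. -/
def onLoc (hΓ : BoundedGeometry Γ) {d d' : ℝ≥0} (h : d ≤ d') :
    CHom (loc p (rat (rips Γ d))) (loc p (rat (rips Γ d'))) where
  f := NS.pushPath (inclZ (rips_le h))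
  map_add := NS.pushPath_add _
  map_mul := NS.pushPath_mul _
  cont := NS.continuous_pushPath _
  maps := fun _ hT => pushPath_mem_loc p hΓ h hT

/-- `K₁(B_L^p(P_d(Γ)))`. -/
def KL (Γ : Type) [MetricSpace Γ] (d : ℝ≥0) : Type := K1 (loc p (rat (rips Γ d)))

/-- `K₁(B^p(P_d(Γ)))`. -/
def KR (Γ : Type) [MetricSpace Γ] (d : ℝ≥0) : Type := K1 (roe p (rat (rips Γ d)))

/-- The maps `K₁(B_L^p(P_d(Γ))) → K₁(B_L^p(P_{d'}(Γ)))`. -/
def mapL (hΓ : BoundedGeometry Γ) (d d' : ℝ≥0) (h : d ≤ d') : KL p Γ d → KL p Γ d' :=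
  K1.map (onLoc p hΓ h)

/-- The maps `K₁(B^p(P_d(Γ))) → K₁(B^p(P_{d'}(Γ)))`. -/
def mapR (hΓ : BoundedGeometry Γ) (d d' : ℝ≥0) (h : d ≤ d') : KR p Γ d → KR p Γ d' :=
  K1.map (onRoe p hΓ h)

/-- The maps `K₁(B_L^p(P_d(Γ))) → K₁(B^p(P_d(Γ)))` induced by evaluation at `0`. -/
def ev (d : ℝ≥0) : KL p Γ d → KR p Γ d := K1.map (evalZero p _)

/-- The direct limit of a family `G d` of sets with maps `f d d' : G d → G d'` for `d ≤ d'`: the
quotient of the disjoint union by the equivalence relation generated by `x ~ f d d' x`. -/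
def DirLim (G : ℝ≥0 → Type) (f : ∀ d d' : ℝ≥0, d ≤ d' → G d → G d') : Type :=
  Quot fun x y : Σ d, G d => ∃ h : x.1 ≤ y.1, y.2 = f x.1 y.1 h x.2

/-- The canonical map to the direct limit. -/
def DirLim.of {G : ℝ≥0 → Type} (f : ∀ d d' : ℝ≥0, d ≤ d' → G d → G d') (d : ℝ≥0) (x : G d) :
    DirLim G f := Quot.mk _ ⟨d, x⟩

/-- The map of the direct limits given by maps `e d` which commute with the maps of the systems. -/
def DirLim.map {G H : ℝ≥0 → Type} (f : ∀ d d' : ℝ≥0, d ≤ d' → G d → G d')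
    (g : ∀ d d' : ℝ≥0, d ≤ d' → H d → H d') (e : ∀ d, G d → H d)
    (hc : ∀ (d d' : ℝ≥0) (h : d ≤ d') (x : G d), e d' (f d d' h x) = g d d' h (e d x)) :
    DirLim G f → DirLim H g :=
  Quot.map (fun x => ⟨x.1, e x.1 x.2⟩) fun x y hxy => ⟨hxy.1, by rw [hxy.2, hc]⟩

/-- `lim_d K₁(B_L^p(P_d(Γ)))`. -/
def LimL (hΓ : BoundedGeometry Γ) : Type := DirLim (KL p Γ) (mapL p hΓ)

/-- `lim_d K₁(B^p(P_d(Γ)))`. -/
def LimR (hΓ : BoundedGeometry Γ) : Type := DirLim (KR p Γ) (mapR p hΓ)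

theorem ev_mapL (hΓ : BoundedGeometry Γ) (d d' : ℝ≥0) (h : d ≤ d') (x : KL p Γ d) :
    ev p d' (mapL p hΓ d d' h x) = mapR p hΓ d d' h (ev p d x) :=
  K1.map_eq_of_comp (onLoc p hΓ h) (evalZero p _) (evalZero p _) (onRoe p hΓ h)
    (fun f => NS.pushPath_val (inclZ (rips_le h)) f 0) x

/-- The index map `lim_d K₁(B_L^p(P_d(Γ))) → lim_d K₁(B^p(P_d(Γ)))`. -/
def indexMap (hΓ : BoundedGeometry Γ) : LimL p hΓ → LimR p hΓ :=
  DirLim.map (mapL p hΓ) (mapR p hΓ) (ev p) (ev_mapL p hΓ)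

/-- The zero of `lim_d K₁(B_L^p(P_d(Γ)))`. -/
def zeroL (hΓ : BoundedGeometry Γ) : LimL p hΓ := DirLim.of (mapL p hΓ) 0 (K1.zero _)

/-- The zero of `lim_d K₁(B^p(P_d(Γ)))`. -/
def zeroR (hΓ : BoundedGeometry Γ) : LimR p hΓ := DirLim.of (mapR p hΓ) 0 (K1.zero _)

end Rips

end

end Pool.Agent.H368.NSM
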