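import Pool.Agent.H368.NS.Defs

/-!
# Comparison of the two versions of the definitions
-/

set_option autoImplicit false
set_option linter.unusedVariables false

namespace Pool.Agent.H368.NS

open scoped ENNReal NNReal Topology BoundedContinuousFunction
open Filter NV

section general

theorem zset_ext {R : Type} [Ring R] {A B : ZSet R} (h : A.s = B.s) : A = B := by
  cases A; cases B; cases h; rfl

theorem chom_ext {R R' : Type} [Ring R] [TopologicalSpace R] [Ring R'] [TopologicalSpace R']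
    {A : ZSet R} {A' : ZSet R'} {φ ψ : CHom A A'} (h : φ.f = ψ.f) : φ = ψ := by
  cases φ; cases ψ; cases h; rfl

theorem lim_inj {RL RR : ℕ → Type} [∀ k, Ring (RL k)] [∀ k, TopologicalSpace (RL k)]
    [∀ k, Ring (RR k)] [∀ k, TopologicalSpace (RR k)]
    {AL AL' : ∀ k, ZSet (RL k)} {AR AR' : ∀ k, ZSet (RR k)}
    (hL : AL = AL') (hR : AR = AR')
    (φ : ∀ k, CHom (AL k) (AL (k + 1))) (φ' : ∀ k, CHom (AL' k) (AL' (k + 1)))
    (ψ : ∀ k, CHom (AR k) (AR (k + 1))) (ψ' : ∀ k, CHom (AR' k) (AR' (k + 1)))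
    (e : ∀ k, CHom (AL k) (AR k)) (e' : ∀ k, CHom (AL' k) (AR' k))
    (hφ : ∀ k x, (φ k).f x = (φ' k).f x) (hψ : ∀ k x, (ψ k).f x = (ψ' k).f x)
    (he : ∀ k x, (e k).f x = (e' k).f x)
    (hc : ∀ k x, K1.map (e (k + 1)) (K1.map (φ k) x) = K1.map (ψ k) (K1.map (e k) x))
    (hc' : ∀ k x, K1.map (e' (k + 1)) (K1.map (φ' k) x) = K1.map (ψ' k) (K1.map (e' k) x))
    (h : ¬ Function.Injective (Lim.map (G := fun k => K1 (AL k)) (H := fun k => K1 (AR k))
      (fun k => K1.map (φ k)) (fun k => K1.map (ψ k)) (fun k => K1.map (e k)) hc)) :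
    ¬ Function.Injective (Lim.map (G := fun k => K1 (AL' k)) (H := fun k => K1 (AR' k))
      (fun k => K1.map (φ' k)) (fun k => K1.map (ψ' k)) (fun k => K1.map (e' k)) hc') := by
  subst hL
  subst hR
  have h1 : φ = φ' := funext fun k => chom_ext (funext (hφ k))
  have h2 : ψ = ψ' := funext fun k => chom_ext (funext (hψ k))
  have h3 : e = e' := funext fun k => chom_ext (funext (he k))
  subst h1
  subst h2
  subst h3
  exact h

end general

section sets

variable {p : ℝ≥0∞} [Fact (1 ≤ p)] [Fact (p ≠ ∞)]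
variable {Y : Type} [PseudoEMetricSpace Y] {Z : Set Y}

theorem prop_eq_tr (T : Op p (Z × ℕ)) : prop T = NV.prop (p := p) T := by
  unfold prop NV.prop
  rw [supp_eq]

theorem locCpt_iff_tr (T : Op p (Z × ℕ)) : LocCpt T ↔ NV.LocCpt (p := p) T := by
  unfold LocCpt NV.LocCpt
  refine forall_congr' fun K => forall_congr' fun hK => ?_
  have h := chi_eq (p := p) (Z := Z) K
  constructor
  · rintro ⟨h1, h2⟩
    rw [← h]
    exact ⟨h1, h2⟩
  · rintro ⟨h1, h2⟩
    rw [← h] at h1 h2
    exact ⟨h1, h2⟩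

theorem roeAlg_eq_tr : (roeAlg p Z : Set (Op p (Z × ℕ))) = (NV.roeAlg p Z : Set (Op p (Z × ℕ))) := by
  ext T
  have h1 := locCpt_iff_tr (p := p) (Z := Z) T
  have h2 := prop_eq_tr (p := p) (Z := Z) T
  constructor
  · rintro ⟨a, b⟩
    exact ⟨h1.1 a, by rw [← h2]; exact b⟩
  · rintro ⟨a, b⟩
    exact ⟨h1.2 a, by rw [h2]; exact b⟩

theorem roe_eq_tr : (roe p Z).s = (NV.roe p Z).s := by
  show closure (roeAlg p Z) = _
  rw [roeAlg_eq_tr]
  rfl

theorem locAlg_eq_tr : (locAlg p Z : Set (Path p (Z × ℕ))) =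
    (NV.locAlg p Z : Set (Path p (Z × ℕ))) := by
  ext f
  have h2 : ∀ t, prop (f.val t) = NV.prop (p := p) (f.val t) := fun t => prop_eq_tr _
  have h3 : (fun t => prop (f.val t)) = fun t => NV.prop (p := p) (f.val t) := funext h2
  constructor
  · rintro ⟨a, b, c, d⟩
    rw [h3] at c d
    refine ⟨a, fun t => ?_, c, d⟩
    have := b t
    rw [roe_eq_tr] at this
    exact this
  · rintro ⟨a, b, c, d⟩
    refine ⟨a, fun t => ?_, ?_, ?_⟩
    · rw [roe_eq_tr]
      exact b t
    · rw [h3]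
      exact c
    · rw [h3]
      exact d

theorem loc_eq_tr : (loc p Z).s = (NV.loc p Z).s := by
  show closure (locAlg p Z) = _
  rw [locAlg_eq_tr]
  rfl

end sets

section maps

variable {p : ℝ≥0∞} [Fact (1 ≤ p)] [Fact (p ≠ ∞)] {I J : Type}

theorem push_eq_tr (ι : I ↪ J) (T : Op p I) : push ι T = NV.push (p := p) ι T := by
  have h := (exists_push ι T).choose_spec
  apply ContinuousLinearMap.ext
  intro f
  apply Subtype.ext
  funext j
  have h1 := h f (res p ι f) (fun i => rfl)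
  by_cases hj : ∃ i, ι i = j
  · obtain ⟨i, rfl⟩ := hj
    exact (h1.1 i).trans (exz_apply (p := p) ι _ i).symm
  · push Not at hj
    exact (h1.2 j hj).trans (exz_apply_notMem (p := p) ι _ hj).symm

theorem pushPath_eq_tr {Y Y' : Type} {Z : Set Y} {Z' : Set Y'} (ι : (Z × ℕ) ↪ (Z' × ℕ))
    (f : Path p (Z × ℕ)) : pushPath ι f = NV.pushPath (p := p) ι f := by
  apply BoundedContinuousFunction.ext
  intro t
  have h := (exists_pushPath ι f).choose_spec t
  exact h.trans (push_eq_tr ι _)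

end maps

theorem not_injective_of (p : ℝ≥0∞) [Fact (1 ≤ p)] [Fact (p ≠ ∞)] {X : Type} [MetricSpace X]
    [ProperSpace X] {S : AntiCech X} {t : Trans S} (L : Lift t)
    (h : ¬ Function.Injective (NV.mu p L)) : ¬ Function.Injective (NS.mu p L) := by
  refine lim_inj (RL := fun k => Path p (rat (nerve (S.cov k)) × ℕ))
    (RR := fun k => Op p (rat (nerve (S.cov k)) × ℕ))
    (AL := fun k => NV.loc p (rat (nerve (S.cov k))))
    (AL' := fun k => NS.loc p (rat (nerve (S.cov k))))
    (AR := fun k => NV.roe p (rat (nerve (S.cov k))))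
    (AR' := fun k => NS.roe p (rat (nerve (S.cov k))))
    (funext fun k => zset_ext (loc_eq_tr (p := p)).symm) (funext fun k => zset_ext (roe_eq_tr (p := p)).symm)
    (fun k => (L.covers k).onLoc p) (fun k => NS.onLoc p L k)
    (fun k => (L.covers k).onRoe p) (fun k => NS.onRoe p L k)
    (fun k => NV.evalZero p _) (fun k => NS.evalZero p _) ?_ ?_ ?_ (NV.ev_step p L) (NS.ev_step p L) h
  · intro k x
    exact (pushPath_eq_tr _ _).symm
  · intro k x
    exact (push_eq_tr _ _).symm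
  · intro k x
    rfl

end Pool.Agent.H368.NS
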