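import Pool.Agent.H368.NS.DefsM
import Pool.Agent.H368.NS.Transfer
import Pool.Agent.H368.NV.MainRips

/-!
# Comparison of the two versions of the definitions (Rips complexes)

PROOF SKETCH. As in Transfer.lean. The types `NS.Op p I`, `NS.Path p I` are by definition equal to `NV.Op p I`,
`ℝ≥0 →ᵇ NV.Op p I`. First `NSM.roe p Z = NV.roeM p Z`, `NSM.loc p Z = NV.locM p Z` (`ZSet` extensionality, `zset_ext` in Transfer.lean),
from `NSM.prop_eq`, `NSM.locCpt_iff`; `NS.push ι = NV.push ι`, `NS.pushPath ι = NV.pushPath ι` are in Transfer.lean / Defs.lean.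
Then a general lemma: let `RL, RR : ℝ≥0 → Type` be families of topological rings, `AL, AL' : ∀ d, ZSet (RL d)`,
`AR, AR' : ∀ d, ZSet (RR d)`, `φ : ∀ {d d'} (h : d ≤ d'), CHom (AL d) (AL d')`, `φ'` for `AL'`, `ψ, ψ'` in the same way for `AR, AR'`,
`e d : CHom (AL d) (AR d)`, `e'`, with commuting squares; if `AL = AL'`, `AR = AR'`, and the underlying functions agree, then the
statement there is `x : DLim (K1 (AL ·)) (K1.map φ)` with `x ≠ DLim.of 0 (K1.zero _)` and `Quot.map (…) x = DLim.of 0 (K1.zero _)`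
is equivalent to the same statement for the primed data (`subst`, `chom_ext`). Unfold `indexMap` = `Quot.map …` (definitional).
-/

set_option autoImplicit false
set_option linter.unusedVariables false

namespace Pool.Agent.H368.NSM

open scoped ENNReal NNReal Topology BoundedContinuousFunction
open Filter NV

section general

theorem dlim_tm {RL RR : ℝ≥0 → Type} [∀ d, Ring (RL d)] [∀ d, TopologicalSpace (RL d)]
    [∀ d, Ring (RR d)] [∀ d, TopologicalSpace (RR d)]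
    {AL AL' : ∀ d, ZSet (RL d)} {AR AR' : ∀ d, ZSet (RR d)}
    (hL : AL = AL') (hR : AR = AR')
    (φ : ∀ d d' : ℝ≥0, d ≤ d' → CHom (AL d) (AL d'))
    (φ' : ∀ d d' : ℝ≥0, d ≤ d' → CHom (AL' d) (AL' d'))
    (ψ : ∀ d d' : ℝ≥0, d ≤ d' → CHom (AR d) (AR d'))
    (ψ' : ∀ d d' : ℝ≥0, d ≤ d' → CHom (AR' d) (AR' d'))
    (e : ∀ d, CHom (AL d) (AR d)) (e' : ∀ d, CHom (AL' d) (AR' d))
    (hφ : ∀ d d' (h : d ≤ d') x, (φ d d' h).f x = (φ' d d' h).f x)
    (hψ : ∀ d d' (h : d ≤ d') x, (ψ d d' h).f x = (ψ' d d' h).f x)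
    (he : ∀ d x, (e d).f x = (e' d).f x)
    (hc : ∀ x y : (Σ d, K1 (AL d)), (∃ h : x.1 ≤ y.1, y.2 = K1.map (φ x.1 y.1 h) x.2) →
      ∃ h : x.1 ≤ y.1, K1.map (e y.1) y.2 = K1.map (ψ x.1 y.1 h) (K1.map (e x.1) x.2))
    (hc' : ∀ x y : (Σ d, K1 (AL' d)), (∃ h : x.1 ≤ y.1, y.2 = K1.map (φ' x.1 y.1 h) x.2) →
      ∃ h : x.1 ≤ y.1, K1.map (e' y.1) y.2 = K1.map (ψ' x.1 y.1 h) (K1.map (e' x.1) x.2))
    (H : ∃ x : Quot (fun x y : (Σ d, K1 (AL d)) => ∃ h : x.1 ≤ y.1, y.2 = K1.map (φ x.1 y.1 h) x.2),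
      x ≠ Quot.mk _ ⟨0, K1.zero _⟩ ∧
      Quot.map (rb := fun x y : (Σ d, K1 (AR d)) =>
        ∃ h : x.1 ≤ y.1, y.2 = K1.map (ψ x.1 y.1 h) x.2)
        (fun x : (Σ d, K1 (AL d)) => (⟨x.1, K1.map (e x.1) x.2⟩ : Σ d, K1 (AR d))) hc x =
        Quot.mk _ ⟨0, K1.zero _⟩) :
    ∃ x : Quot (fun x y : (Σ d, K1 (AL' d)) => ∃ h : x.1 ≤ y.1, y.2 = K1.map (φ' x.1 y.1 h) x.2),
      x ≠ Quot.mk _ ⟨0, K1.zero _⟩ ∧
      Quot.map (rb := fun x y : (Σ d, K1 (AR' d)) =>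
        ∃ h : x.1 ≤ y.1, y.2 = K1.map (ψ' x.1 y.1 h) x.2)
        (fun x : (Σ d, K1 (AL' d)) => (⟨x.1, K1.map (e' x.1) x.2⟩ : Σ d, K1 (AR' d))) hc' x =
        Quot.mk _ ⟨0, K1.zero _⟩ := by
  subst hL
  subst hR
  have h1 : φ = φ' := funext fun d => funext fun d' => funext fun h =>
    NS.chom_ext (funext (hφ d d' h))
  have h2 : ψ = ψ' := funext fun d => funext fun d' => funext fun h =>
    NS.chom_ext (funext (hψ d d' h))
  have h3 : e = e' := funext fun k => NS.chom_ext (funext (he k))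
  subst h1
  subst h2
  subst h3
  exact H

end general

section sets

variable {p : ℝ≥0∞} [Fact (1 ≤ p)] [Fact (p ≠ ∞)]
variable {Y : Type} [PseudoEMetricSpace Y] {Z : Set Y}

theorem roeAlg_eq_tm : (roeAlg p Z : Set (NS.Op p (Z × ℕ))) =
    (NV.roeAlgM p Z : Set (NS.Op p (Z × ℕ))) := by
  ext T
  have h1 := locCpt_iff (p := p) (Z := Z) T
  have h2 := prop_eq (p := p) (Z := Z) T
  constructor
  · rintro ⟨a, b⟩
    exact ⟨h1.1 a, by rw [← h2]; exact b⟩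
  · rintro ⟨a, b⟩
    exact ⟨h1.2 a, by rw [h2]; exact b⟩

theorem roe_eq_tm : (roe p Z).s = (NV.roeM p Z).s := by
  show closure (roeAlg p Z) = _
  rw [roeAlg_eq_tm]
  rfl

theorem locAlg_eq_tm : (locAlg p Z : Set (NS.Path p (Z × ℕ))) =
    (NV.locAlgM p Z : Set (NS.Path p (Z × ℕ))) := by
  ext f
  have h2 : ∀ t, prop (f.val t) = NV.propM (p := p) (f.val t) := fun t => prop_eq _
  have h3 : (fun t => prop (f.val t)) = fun t => NV.propM (p := p) (f.val t) := funext h2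
  constructor
  · rintro ⟨a, b, d⟩
    rw [h3] at d
    refine ⟨a, fun t => ?_, d⟩
    have := b t
    rw [roe_eq_tm] at this
    exact this
  · rintro ⟨a, b, d⟩
    refine ⟨a, fun t => ?_, ?_⟩
    · rw [roe_eq_tm]
      exact b t
    · rw [h3]
      exact d

theorem loc_eq_tm : (loc p Z).s = (NV.locM p Z).s := by
  show closure (locAlg p Z) = _
  rw [locAlg_eq_tm]
  rfl

end sets

theorem index_of (p : ℝ≥0∞) [Fact (1 ≤ p)] [Fact (p ≠ ∞)] {Γ : Type} [MetricSpace Γ]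
    (hΓ : BoundedGeometry Γ)
    (h : ∃ x : NV.LimL p hΓ, x ≠ NV.LimL.zero p hΓ ∧ NV.indexMap p hΓ x = NV.LimR.zero p hΓ) :
    ∃ x : NSM.LimL p hΓ, x ≠ NSM.zeroL p hΓ ∧ NSM.indexMap p hΓ x = NSM.zeroR p hΓ := by
  refine dlim_tm (RL := fun d => NS.Path p (rat (rips Γ d) × ℕ))
    (RR := fun d => NS.Op p (rat (rips Γ d) × ℕ))
    (AL := fun d => NV.locM p (rat (rips Γ d)))
    (AL' := fun d => NSM.loc p (rat (rips Γ d)))
    (AR := fun d => NV.roeM p (rat (rips Γ d)))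
    (AR' := fun d => NSM.roe p (rat (rips Γ d)))
    (funext fun d => NS.zset_ext (loc_eq_tm (p := p)).symm)
    (funext fun d => NS.zset_ext (roe_eq_tm (p := p)).symm)
    (fun d d' h => (NV.coversM_rips hΓ h).onLoc p) (fun d d' h => NSM.onLoc p hΓ h)
    (fun d d' h => (NV.coversM_rips hΓ h).onRoe p) (fun d d' h => NSM.onRoe p hΓ h)
    (fun d => NV.evalZeroM p _) (fun d => NSM.evalZero p _) ?_ ?_ ?_ ?_ ?_ h
  · intro d d' h x
    exact (NS.pushPath_eq_tr _ _).symm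
  · intro d d' h x
    exact (NS.push_eq_tr _ _).symm
  · intro d x
    rfl
  · rintro x y ⟨h, hy⟩
    refine ⟨h, ?_⟩
    change NV.evM p y.1 y.2 = NV.mapR p hΓ h (NV.evM p x.1 x.2)
    rw [hy]
    exact NV.evM_mapL p hΓ h x.2
  · rintro x y ⟨h, hy⟩
    refine ⟨h, ?_⟩
    rw [hy]
    exact ev_mapL p hΓ x.1 y.1 h x.2

end Pool.Agent.H368.NSM
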